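import Pool.Agent.H.MP_215299_an.RC.TypB

/-!
# The real points of the image

`set_eq`: if `f z = x` is real then `f (conj z) = conj (f z) = f z` (`conj_eq`), so `conj z = z` and `z` is a real `t ∈ (-1, 1)`, `f t` is real. `has_dr`: restriction of the
complex derivative to the reals, real part (`HasDerivAt.real_of_complex`). `norm_F`: `F` is the inverse of `f` near `f t` (open mapping or
`HasStrictDerivAt.to_localInverse`), `deriv F (f t) = (deriv f t)⁻¹`; `deriv f t` is real: its imaginary part is the derivative of `t ↦ (f t).im = 0`.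
(Similar lemmas: Pool/Agent/H/MP_215299_an/CC, KD.)
-/

set_option autoImplicit false

open Metric Set MeasureTheory Filter
open scoped ENNReal Topology ComplexConjugate

namespace Pool.Agent.H.MP_215299_an.RC

theorem ChgA_mem {t : ℝ} (ht : t ∈ Ioo (-1 : ℝ) 1) : (t : ℂ) ∈ ball (0 : ℂ) 1 := by
  rw [mem_ball_zero_iff, Complex.norm_real, Real.norm_eq_abs, abs_lt]
  exact ht

theorem ChgA_re {f : ℂ → ℂ} (h : RU f) {t : ℝ} (ht : t ∈ Ioo (-1 : ℝ) 1) :
    (((f t).re : ℝ) : ℂ) = f t := by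
  apply Complex.ext
  · simp
  · rw [Complex.ofReal_im, h.real t (abs_lt.2 ht)]

theorem ChgA_deriv {f : ℂ → ℂ} (h : RU f) {t : ℝ} (ht : t ∈ Ioo (-1 : ℝ) 1) :
    HasDerivAt f (deriv f t) t :=
  (h.diff.differentiableAt (isOpen_ball.mem_nhds (ChgA_mem ht))).hasDerivAt

theorem set_eq {f : ℂ → ℂ} (h : RU f) : {x : ℝ | (x : ℂ) ∈ f '' ball (0 : ℂ) 1} =
    (fun t : ℝ => (f t).re) '' Ioo (-1) 1 := by
  ext x
  constructor
  · rintro ⟨z, hz, hzx⟩
    have hz' : conj z ∈ ball (0 : ℂ) 1 := by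
      rw [mem_ball_zero_iff, Complex.norm_conj]
      exact mem_ball_zero_iff.1 hz
    have h1 : f (conj z) = f z := by
      rw [conj_eq h hz, hzx, Complex.conj_ofReal]
    have h2 : conj z = z := h.inj hz' hz h1
    obtain ⟨t, rfl⟩ := Complex.conj_eq_iff_real.1 h2
    refine ⟨t, ?_, ?_⟩
    · rw [mem_ball_zero_iff, Complex.norm_real, Real.norm_eq_abs, abs_lt] at hz
      exact hz
    · show (f (t : ℂ)).re = x
      rw [hzx, Complex.ofReal_re]
  · rintro ⟨t, ht, rfl⟩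
    exact ⟨t, ChgA_mem ht, (ChgA_re h ht).symm⟩

theorem has_dr {f : ℂ → ℂ} (h : RU f) {t : ℝ} (ht : t ∈ Ioo (-1 : ℝ) 1) :
    HasDerivAt (fun t : ℝ => (f t).re) (dr f t) t :=
  (ChgA_deriv h ht).real_of_complex

theorem inj_re {f : ℂ → ℂ} (h : RU f) : InjOn (fun t : ℝ => (f t).re) (Ioo (-1) 1) := by
  intro t ht s hs hts
  have h1 : (f t).re = (f s).re := hts
  have h2 : f t = f s := by rw [← ChgA_re h ht, ← ChgA_re h hs, h1]
  have h3 := h.inj (ChgA_mem ht) (ChgA_mem hs) h2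
  exact_mod_cast h3

theorem ChgA_im {f : ℂ → ℂ} (h : RU f) {t : ℝ} (ht : t ∈ Ioo (-1 : ℝ) 1) :
    (deriv f (t : ℂ)).im = 0 := by
  have h1 := (ChgA_deriv h ht).const_mul (-Complex.I)
  have h2 := h1.real_of_complex
  have h3 : (fun x : ℝ => (-Complex.I * f x).re) =ᶠ[𝓝 t] fun _ => (0 : ℝ) := by
    filter_upwards [isOpen_Ioo.mem_nhds ht] with x hx
    have h4 := h.real x (abs_lt.2 hx)
    simp [h4]
  have h5 := h2.unique ((hasDerivAt_const t (0 : ℝ)).congr_of_eventuallyEq h3)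
  simpa using h5

theorem norm_F {f F : ℂ → ℂ} (h : RU f) (hF : ∀ z ∈ ball (0 : ℂ) 1, F (f z) = z) {t : ℝ}
    (ht : t ∈ Ioo (-1 : ℝ) 1) (h0 : 0 < dr f t) :
    ‖deriv F (((f t).re : ℝ) : ℂ)‖ = (dr f t)⁻¹ := by
  have hd : deriv f (t : ℂ) = (dr f t : ℂ) := by
    apply Complex.ext
    · rw [Complex.ofReal_re]
      rfl
    · rw [Complex.ofReal_im, ChgA_im h ht]
  have hne : deriv f (t : ℂ) ≠ 0 := by
    rw [hd]
    exact_mod_cast h0.ne'
  have han : AnalyticAt ℂ f (t : ℂ) :=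
    h.diff.analyticAt (isOpen_ball.mem_nhds (ChgA_mem ht))
  have hs : HasStrictDerivAt f (deriv f (t : ℂ)) (t : ℂ) := han.hasStrictDerivAt
  have hg : ∀ᶠ x in 𝓝 (t : ℂ), F (f x) = x := by
    filter_upwards [isOpen_ball.mem_nhds (ChgA_mem ht)] with x hx
    exact hF x hx
  have h1 := (hs.to_local_left_inverse hne hg).hasDerivAt.deriv
  rw [ChgA_re h ht, h1, norm_inv, hd, Complex.norm_real, Real.norm_eq_abs, abs_of_pos h0]

end Pool.Agent.H.MP_215299_an.RC
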