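import Pool.Agent.H.MP_215299_an.RC.Defs

/-!
# The pointwise inequalities

`A x t ^ (1 - p) = (a - b) ^ q / (1 - x^2) ^ (p - 1)` with `a = 1 + x^2`, `b = 2 x cos t`, `q = 2 (p - 1)`, `|b| ≤ 2 |x| ≤ a`; for `-x`: `(a + b) ^ q`.
`q ≤ 1`: `(a - b)^q + (a + b)^q ≤ 2 a^q` (concavity of `y ^ q`, `Real.concaveOn_rpow`). `q ≥ 1`: `(a - b)^q + (a + b)^q ≤ (a - c)^q + (a + c)^q`, `c = 2 |x|`
(convexity, `convexOn_rpow`, `a ± b` are convex combinations of `a ± c`), `a ∓ c = (1 ∓ |x|)^2`.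
-/

set_option autoImplicit false

open Metric Set MeasureTheory Filter
open scoped ENNReal Topology ComplexConjugate

namespace Pool.Agent.H.MP_215299_an.RC

private theorem aux {u d r : ℝ} (hu : 0 < u) (hd : 0 < d) :
    (u / d ^ 2) ^ (-r) = d ^ (2 * r) / u ^ r := by
  rw [Real.div_rpow hu.le (by positivity), Real.rpow_neg hu.le, Real.rpow_neg (by positivity),
    ← Real.rpow_natCast d 2, ← Real.rpow_mul hd.le]
  have h1 : 0 < u ^ r := Real.rpow_pos_of_pos hu r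
  have h2 : 0 < d ^ ((2 : ℕ) * r) := Real.rpow_pos_of_pos hd _
  push_cast at h2 ⊢
  field_simp

private theorem aux2 {u d r : ℝ} (hu : 0 < u) (hd : 0 < d) :
    (d ^ 2 / u) ^ r = d ^ (2 * r) / u ^ r := by
  rw [Real.div_rpow (by positivity) hu.le, ← Real.rpow_natCast d 2, ← Real.rpow_mul hd.le]
  norm_num

private theorem pos {x t : ℝ} (hx : |x| < 1) : 0 < 1 - 2 * x * Real.cos t + x ^ 2 := by
  have h1 := abs_lt.1 hx
  have h2 := Real.neg_one_le_cos t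
  have h3 := Real.cos_le_one t
  nlinarith [mul_pos (by linarith [h1.1] : (0 : ℝ) < 1 + x) (by linarith [h1.2] : (0 : ℝ) < 1 - x),
    sq_nonneg (x - Real.cos t), mul_nonneg (by linarith : (0 : ℝ) ≤ 1 - Real.cos t)
      (by linarith : (0 : ℝ) ≤ 1 + Real.cos t), sq_pos_of_pos (by linarith [h1.1] : (0 : ℝ) < 1 + x),
    sq_pos_of_pos (by linarith [h1.2] : (0 : ℝ) < 1 - x),
    mul_nonneg (by linarith : (0 : ℝ) ≤ 1 - Real.cos t) (sq_nonneg (1 + x)),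
    mul_nonneg (by linarith : (0 : ℝ) ≤ 1 + Real.cos t) (sq_nonneg (1 - x))]

private theorem u_pos {x : ℝ} (hx : |x| < 1) : 0 < 1 - x ^ 2 := by
  have h1 := abs_lt.1 hx
  nlinarith [mul_pos (by linarith [h1.1] : (0 : ℝ) < 1 + x) (by linarith [h1.2] : (0 : ℝ) < 1 - x)]

theorem pt_h {p x : ℝ} (hp : 1 ≤ p) (hp2 : p ≤ 3 / 2) (hx : |x| < 1) (t : ℝ) :
    A x t ^ (1 - p) + A (-x) t ^ (1 - p) ≤ mh p x := by
  have hu := u_pos hx
  have hd1 := pos (t := t) hx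
  have hd2 : 0 < 1 + 2 * x * Real.cos t + x ^ 2 := by
    have := pos (x := -x) (t := t) (by rwa [abs_neg])
    nlinarith
  have e1 : A x t ^ (1 - p) = (1 - 2 * x * Real.cos t + x ^ 2) ^ (2 * (p - 1)) / (1 - x ^ 2) ^ (p - 1) := by
    rw [A, show 1 - p = -(p - 1) by ring, aux hu hd1]
  have e2 : A (-x) t ^ (1 - p) =
      (1 + 2 * x * Real.cos t + x ^ 2) ^ (2 * (p - 1)) / (1 - x ^ 2) ^ (p - 1) := by
    rw [A, show 1 - p = -(p - 1) by ring,
      show 1 - 2 * -x * Real.cos t + (-x) ^ 2 = 1 + 2 * x * Real.cos t + x ^ 2 by ring,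
      show 1 - (-x) ^ 2 = 1 - x ^ 2 by ring, aux hu hd2]
  have hc := (Real.concaveOn_rpow (p := 2 * (p - 1)) (by linarith) (by linarith)).2
    (Set.mem_Ici.2 hd1.le) (Set.mem_Ici.2 hd2.le) (by norm_num : (0 : ℝ) ≤ 1 / 2)
    (by norm_num : (0 : ℝ) ≤ 1 / 2) (by norm_num)
  simp only [smul_eq_mul] at hc
  rw [show 1 / 2 * (1 - 2 * x * Real.cos t + x ^ 2) + 1 / 2 * (1 + 2 * x * Real.cos t + x ^ 2) =
    1 + x ^ 2 by ring] at hc
  rw [e1, e2, mh, aux2 hu (by positivity), ← add_div, ← mul_div_assoc]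
  have h1 : 0 < (1 - x ^ 2) ^ (p - 1) := Real.rpow_pos_of_pos hu _
  gcongr
  linarith

theorem pt_k {p x : ℝ} (hp : 3 / 2 ≤ p) (hx : |x| < 1) (t : ℝ) :
    A x t ^ (1 - p) + A (-x) t ^ (1 - p) ≤ mk p x := by
  have hu := u_pos hx
  have hd1 := pos (t := t) hx
  have hd2 : 0 < 1 + 2 * x * Real.cos t + x ^ 2 := by
    have := pos (x := -x) (t := t) (by rwa [abs_neg])
    nlinarith
  have hl := abs_lt.1 hx
  have h1x : 0 < (1 - x) ^ 2 := by have : 0 < 1 - x := by linarith [hl.2]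
                                   positivity
  have h2x : 0 < (1 + x) ^ 2 := by have : 0 < 1 + x := by linarith [hl.1]
                                   positivity
  have e1 : A x t ^ (1 - p) = (1 - 2 * x * Real.cos t + x ^ 2) ^ (2 * (p - 1)) / (1 - x ^ 2) ^ (p - 1) := by
    rw [A, show 1 - p = -(p - 1) by ring, aux hu hd1]
  have e2 : A (-x) t ^ (1 - p) =
      (1 + 2 * x * Real.cos t + x ^ 2) ^ (2 * (p - 1)) / (1 - x ^ 2) ^ (p - 1) := by
    rw [A, show 1 - p = -(p - 1) by ring,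
      show 1 - 2 * -x * Real.cos t + (-x) ^ 2 = 1 + 2 * x * Real.cos t + x ^ 2 by ring,
      show 1 - (-x) ^ 2 = 1 - x ^ 2 by ring, aux hu hd2]
  have hconv := (convexOn_rpow (p := 2 * (p - 1)) (by linarith)).2
  have c1 := Real.neg_one_le_cos t
  have c2 := Real.cos_le_one t
  have k1 := hconv (Set.mem_Ici.2 h1x.le) (Set.mem_Ici.2 h2x.le)
    (by linarith : (0 : ℝ) ≤ (1 + Real.cos t) / 2) (by linarith : (0 : ℝ) ≤ (1 - Real.cos t) / 2)
    (by ring)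
  have k2 := hconv (Set.mem_Ici.2 h1x.le) (Set.mem_Ici.2 h2x.le)
    (by linarith : (0 : ℝ) ≤ (1 - Real.cos t) / 2) (by linarith : (0 : ℝ) ≤ (1 + Real.cos t) / 2)
    (by ring)
  simp only [smul_eq_mul] at k1 k2
  rw [show (1 + Real.cos t) / 2 * (1 - x) ^ 2 + (1 - Real.cos t) / 2 * (1 + x) ^ 2 =
    1 - 2 * x * Real.cos t + x ^ 2 by ring] at k1
  rw [show (1 - Real.cos t) / 2 * (1 - x) ^ 2 + (1 + Real.cos t) / 2 * (1 + x) ^ 2 =
    1 + 2 * x * Real.cos t + x ^ 2 by ring] at k2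
  rw [e1, e2, mk, show (1 - x) ^ 4 = ((1 - x) ^ 2) ^ 2 by ring,
    show (1 + x) ^ 4 = ((1 + x) ^ 2) ^ 2 by ring, aux2 hu h1x, aux2 hu h2x, ← add_div, ← add_div]
  have h1 : 0 < (1 - x ^ 2) ^ (p - 1) := Real.rpow_pos_of_pos hu _
  exact div_le_div_of_nonneg_right (by linarith) h1.le

end Pool.Agent.H.MP_215299_an.RC
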