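import Pool.Agent.H.MP_215299_an.RC.Jen
import Pool.Agent.H.MP_215299_an.RC.Pt

/-!
# The limit

`dr_pos`: choose `ρ` with `|x| < ρ < 1` and apply `dr_pos'` to `x / ρ`. `pair_h`: for `|x| < ρ < 1`, `jen` for `x / ρ` and `M = mh p (x / ρ)` (`pt_h`) gives the inequality with
`mh p (x / ρ)`; let `ρ → 1` (`ge_of_tendsto`, `𝓝[<] 1`), `mh p` is continuous at `x` (`1 - x^2 > 0`). Same for `pair_k`.
-/

set_option autoImplicit false

open Metric Set MeasureTheory Filter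
open scoped ENNReal Topology ComplexConjugate

namespace Pool.Agent.H.MP_215299_an.RC

theorem dr_pos {f : ℂ → ℂ} (h : RU f) {x : ℝ} (hx : |x| < 1) : 0 < dr f x := by
  have hx0 : 0 ≤ |x| := abs_nonneg x
  have h0 : 0 < (|x| + 1) / 2 := by linarith
  have h1 : (|x| + 1) / 2 < 1 := by linarith
  have h2 : |x / ((|x| + 1) / 2)| < 1 := by
    rw [abs_div, abs_of_pos h0, div_lt_one h0]
    linarith
  have h3 := dr_pos' h h0 h1 h2
  rwa [mul_div_cancel₀ x h0.ne'] at h3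

private theorem Lim_gen {f : ℂ → ℂ} (h : RU f) {p x : ℝ} (hp : 1 ≤ p) (hx : |x| < 1)
    {M : ℝ → ℝ} (hc : ContinuousAt M x)
    (hM : ∀ y, |y| < 1 → ∀ t, A y t ^ (1 - p) + A (-y) t ^ (1 - p) ≤ M y) :
    dr f x ^ (1 - p) + dr f (-x) ^ (1 - p) ≤ M x := by
  have hx0 : 0 ≤ |x| := abs_nonneg x
  have t1 : Tendsto (fun r : ℝ => x / r) (𝓝[<] 1) (𝓝 x) := by
    have h2 : ContinuousAt (fun r : ℝ => x / r) 1 :=
      continuousAt_const.div continuousAt_id one_ne_zero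
    have h3 : Tendsto (fun r : ℝ => x / r) (𝓝 1) (𝓝 (x / 1)) := h2
    rw [div_one] at h3
    exact h3.mono_left nhdsWithin_le_nhds
  have t2 : Tendsto (fun r : ℝ => M (x / r)) (𝓝[<] 1) (𝓝 (M x)) := hc.tendsto.comp t1
  refine ge_of_tendsto t2 ?_
  have h4 : ∀ᶠ r : ℝ in 𝓝[<] 1, r ∈ Ioo |x| 1 := Ioo_mem_nhdsLT hx
  filter_upwards [h4] with r hr
  have h0 : 0 < r := lt_of_le_of_lt hx0 hr.1
  have h5 : |x / r| < 1 := by
    rw [abs_div, abs_of_pos h0, div_lt_one h0]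
    exact hr.1
  have h6 := jen h h0 hr.2 h5 hp (hM (x / r) h5)
  rwa [mul_div_cancel₀ x h0.ne'] at h6

private theorem Lim_sq {x : ℝ} (hx : |x| < 1) : (1 : ℝ) - x ^ 2 ≠ 0 := by
  have h1 := abs_lt.1 hx
  have : 0 < 1 - x ^ 2 := by nlinarith [h1.1, h1.2]
  exact this.ne'

theorem pair_h {f : ℂ → ℂ} (h : RU f) {p x : ℝ} (hp : 1 ≤ p) (hp2 : p ≤ 3 / 2) (hx : |x| < 1) :
    dr f x ^ (1 - p) + dr f (-x) ^ (1 - p) ≤ mh p x := by
  refine Lim_gen h hp hx (M := mh p) ?_ (fun y hy t => pt_h hp hp2 hy t)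
  unfold mh
  refine continuousAt_const.mul (ContinuousAt.rpow_const ?_ (Or.inr (by linarith)))
  exact ContinuousAt.div (by fun_prop) (by fun_prop) (Lim_sq hx)

theorem pair_k {f : ℂ → ℂ} (h : RU f) {p x : ℝ} (hp : 3 / 2 ≤ p) (hx : |x| < 1) :
    dr f x ^ (1 - p) + dr f (-x) ^ (1 - p) ≤ mk p x := by
  refine Lim_gen h (by linarith) hx (M := mk p) ?_ (fun y hy t => pt_k hp hy t)
  unfold mk
  refine ContinuousAt.add (ContinuousAt.rpow_const ?_ (Or.inr (by linarith)))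
    (ContinuousAt.rpow_const ?_ (Or.inr (by linarith)))
  · exact ContinuousAt.div (by fun_prop) (by fun_prop) (Lim_sq hx)
  · exact ContinuousAt.div (by fun_prop) (by fun_prop) (Lim_sq hx)

end Pool.Agent.H.MP_215299_an.RC
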