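import Pool.Agent.H.MP_215299_an.RC.ChgA
import Pool.Agent.H.MP_215299_an.RC.Lim

/-!
# Change of variables

`set_eq`, `MeasureTheory.lintegral_image_eq_lintegral_abs_deriv_mul` with `has_dr`, `inj_re`; then `norm_F` and
`|d| * (d⁻¹) ^ p = d ^ (1 - p)` for `d = dr f t > 0` (`dr_pos`).
-/

set_option autoImplicit false

open Metric Set MeasureTheory Filter
open scoped ENNReal Topology ComplexConjugate

namespace Pool.Agent.H.MP_215299_an.RC

theorem chg {f F : ℂ → ℂ} (h : RU f) (hF : ∀ z ∈ ball (0 : ℂ) 1, F (f z) = z) (p : ℝ) :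
    ∫⁻ x in {x : ℝ | (x : ℂ) ∈ f '' ball (0 : ℂ) 1}, ENNReal.ofReal (‖deriv F (x : ℂ)‖ ^ p) =
      ∫⁻ t in Ioo (-1 : ℝ) 1, ENNReal.ofReal (dr f t ^ (1 - p)) := by
  have h1 := lintegral_image_eq_lintegral_abs_deriv_mul (s := Ioo (-1 : ℝ) 1)
    (f := fun t : ℝ => (f t).re) (f' := dr f) measurableSet_Ioo
    (fun t ht => (has_dr h ht).hasDerivWithinAt) (inj_re h)
    (fun x : ℝ => ENNReal.ofReal (‖deriv F (x : ℂ)‖ ^ p))
  rw [set_eq h, h1]
  refine setLIntegral_congr_fun measurableSet_Ioo fun t ht => ?_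
  have h0 : 0 < dr f t := dr_pos h (abs_lt.2 ⟨ht.1, ht.2⟩)
  show ENNReal.ofReal |dr f t| * ENNReal.ofReal (‖deriv F (((f t).re : ℝ) : ℂ)‖ ^ p) =
    ENNReal.ofReal (dr f t ^ (1 - p))
  rw [norm_F h hF ht h0, abs_of_pos h0, ← ENNReal.ofReal_mul h0.le, Real.inv_rpow h0.le,
    Real.rpow_sub h0, Real.rpow_one, div_eq_mul_inv]

end Pool.Agent.H.MP_215299_an.RC
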