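import Mathlib

/-!
# MP_215299_an: univalent functions with real coefficients, definitions
-/

set_option autoImplicit false

open Metric Set MeasureTheory Filter
open scoped ENNReal Topology ComplexConjugate

namespace Pool.Agent.H.MP_215299_an.RC

/-- `f` is univalent in the unit disc, `f(0) = 0`, `f'(0) = 1`, and real on the real diameter (its Taylor
coefficients are real). -/
structure RU (f : ℂ → ℂ) : Prop where
  diff : DifferentiableOn ℂ f (ball 0 1)
  inj : InjOn f (ball 0 1)
  zero : f 0 = 0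
  one : deriv f 0 = 1
  real : ∀ x : ℝ, |x| < 1 → (f x).im = 0

/-- The derivative on the real diameter. -/
noncomputable def dr (f : ℂ → ℂ) (x : ℝ) : ℝ := (deriv f (x : ℂ)).re

/-- The kernel of the representation of the derivative. -/
noncomputable def A (x t : ℝ) : ℝ := (1 - x ^ 2) / (1 - 2 * x * Real.cos t + x ^ 2) ^ 2

/-- The weight on the circle of radius `ρ`. -/
noncomputable def wt (f : ℂ → ℂ) (ρ t : ℝ) : ℝ :=
  2 * Real.sin t * (f (ρ * Complex.exp (t * Complex.I))).im / ρ

/-- The complex kernel. -/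
noncomputable def kap (x t : ℝ) : ℂ :=
  Complex.exp (t * Complex.I) / (Complex.exp (t * Complex.I) - x) ^ 2

/-- The function `z / (1 + z ^ 2)`. -/
noncomputable def hf (z : ℂ) : ℂ := z / (1 + z ^ 2)

/-- The Koebe function. -/
noncomputable def kf (z : ℂ) : ℂ := z / (1 - z) ^ 2

/-- The bound for the sum at `x` and `-x`, for `p ≤ 3 / 2`. -/
noncomputable def mh (p x : ℝ) : ℝ := 2 * ((1 + x ^ 2) ^ 2 / (1 - x ^ 2)) ^ (p - 1)

/-- The bound for the sum at `x` and `-x`, for `p ≥ 3 / 2`. -/
noncomputable def mk (p x : ℝ) : ℝ :=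
  ((1 - x) ^ 4 / (1 - x ^ 2)) ^ (p - 1) + ((1 + x) ^ 4 / (1 - x ^ 2)) ^ (p - 1)

end Pool.Agent.H.MP_215299_an.RC
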