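import Pool.Agent.H.MP_215299_an.RC.Defs

/-!
# The function `z / (1 + z^2)`

`z / (1 + z^2) = w / (1 + w^2)` gives `(z - w) (1 - z w) = 0`, `|z w| < 1`; `1 + z^2 ≠ 0` in the disc. `f' = (1 - z^2) / (1 + z^2)^2`.
-/

set_option autoImplicit false

open Metric Set MeasureTheory Filter
open scoped ENNReal Topology ComplexConjugate

namespace Pool.Agent.H.MP_215299_an.RC

private theorem ExtA_ne {z : ℂ} (hz : ‖z‖ < 1) : (1 + z ^ 2 : ℂ) ≠ 0 := by
  intro h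
  have h1 : z ^ 2 = -1 := by linear_combination h
  have h2 : ‖z‖ ^ 2 = 1 := by
    rw [← norm_pow, h1, norm_neg, norm_one]
  have h3 : ‖z‖ ^ 2 < 1 := by
    have := norm_nonneg z
    nlinarith
  linarith

private theorem ExtA_deriv {z : ℂ} (hz : ‖z‖ < 1) :
    HasDerivAt hf ((1 - z ^ 2) / (1 + z ^ 2) ^ 2) z := by
  have h1 : HasDerivAt (fun w : ℂ => 1 + w ^ 2) (2 * z) z := by
    have := (hasDerivAt_pow 2 z).const_add 1
    simpa using this
  have h2 := (hasDerivAt_id z).div h1 (ExtA_ne hz)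
  have h3 : (1 * (1 + z ^ 2) - id z * (2 * z)) / (1 + z ^ 2) ^ 2 =
      (1 - z ^ 2) / (1 + z ^ 2) ^ 2 := by
    congr 1
    simp only [id]
    ring
  rw [h3] at h2
  exact h2

theorem ru_hf : RU hf := by
  refine ⟨?_, ?_, ?_, ?_, ?_⟩
  · intro z hz
    exact (ExtA_deriv (by simpa using hz)).differentiableAt.differentiableWithinAt
  · intro z hz w hw h
    have hz' : ‖z‖ < 1 := by simpa using hz
    have hw' : ‖w‖ < 1 := by simpa using hw
    have h1 : z / (1 + z ^ 2) = w / (1 + w ^ 2) := h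
    rw [div_eq_div_iff (ExtA_ne hz') (ExtA_ne hw')] at h1
    have h2 : (z - w) * (1 - z * w) = 0 := by linear_combination h1
    rcases mul_eq_zero.1 h2 with h3 | h3
    · exact sub_eq_zero.1 h3
    · exfalso
      have h4 : z * w = 1 := (sub_eq_zero.1 h3).symm
      have h5 : ‖z‖ * ‖w‖ = 1 := by rw [← norm_mul, h4, norm_one]
      have h6 := norm_nonneg z
      have h7 := norm_nonneg w
      nlinarith
  · simp [hf]
  · rw [(ExtA_deriv (by simp : ‖(0 : ℂ)‖ < 1)).deriv]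
    simp
  · intro x _
    have h1 : hf (x : ℂ) = ((x / (1 + x ^ 2) : ℝ) : ℂ) := by
      unfold hf
      push_cast
      rfl
    rw [h1, Complex.ofReal_im]

theorem dr_hf {x : ℝ} (hx : |x| < 1) : dr hf x = (1 - x ^ 2) / (1 + x ^ 2) ^ 2 := by
  unfold dr
  have hx' : ‖(x : ℂ)‖ < 1 := by
    rw [Complex.norm_real, Real.norm_eq_abs]
    exact hx
  rw [(ExtA_deriv hx').deriv]
  have h1 : (1 - (x : ℂ) ^ 2) / (1 + (x : ℂ) ^ 2) ^ 2 =
      (((1 - x ^ 2) / (1 + x ^ 2) ^ 2 : ℝ) : ℂ) := by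
    push_cast
    rfl
  rw [h1, Complex.ofReal_re]

private theorem ExtA_pow {p x : ℝ} (hx : |x| < 1) :
    dr hf x ^ (1 - p) = ((1 + x ^ 2) ^ 2 / (1 - x ^ 2)) ^ (p - 1) := by
  have h1 : x ^ 2 < 1 := (sq_lt_one_iff_abs_lt_one x).2 hx
  have h2 : 0 ≤ (1 - x ^ 2) / (1 + x ^ 2) ^ 2 := div_nonneg (by linarith) (by positivity)
  rw [dr_hf hx, show 1 - p = -(p - 1) by ring, Real.rpow_neg h2, ← Real.inv_rpow h2, inv_div]

theorem sum_hf {p x : ℝ} (hx : |x| < 1) : dr hf x ^ (1 - p) + dr hf (-x) ^ (1 - p) = mh p x := by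
  have h1 : |(-x)| < 1 := by
    rw [abs_neg]
    exact hx
  rw [ExtA_pow hx, ExtA_pow h1, mh, neg_sq]
  ring

private theorem ExtA_half {p x : ℝ} (hp : 1 ≤ p) (hx0 : 0 ≤ x) (hx : x < 1) :
    ((1 + x ^ 2) ^ 2 / (1 - x ^ 2)) ^ (p - 1) ≤ 4 ^ (p - 1) * (1 - x) ^ (1 - p) := by
  have h1 : 0 < 1 - x := by linarith
  have h2 : x ^ 2 ≤ x := by nlinarith
  have h3 : (1 + x ^ 2) ^ 2 / (1 - x ^ 2) ≤ 4 / (1 - x) := by
    refine div_le_div₀ (by norm_num) ?_ h1 (by linarith)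
    have h4 : x ^ 2 ≤ 1 := by linarith
    nlinarith [sq_nonneg x]
  have h5 : 0 ≤ (1 + x ^ 2) ^ 2 / (1 - x ^ 2) := div_nonneg (by positivity) (by linarith)
  refine (Real.rpow_le_rpow h5 h3 (by linarith)).trans (le_of_eq ?_)
  rw [div_eq_mul_inv, Real.mul_rpow (by norm_num) (inv_nonneg.2 h1.le), Real.inv_rpow h1.le,
    ← Real.rpow_neg h1.le, show -(p - 1) = 1 - p by ring]

/-- the integral is finite: `((1 + x^2)^2 / (1 - x^2)) ^ (p - 1) ≤ (4 / (1 - |x|)) ^ (p - 1)`, `p - 1 < 1` -/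
theorem fin_hf {p : ℝ} (hp : 1 ≤ p) (hp2 : p < 2) :
    ∫⁻ x in Ioo (-1 : ℝ) 1, ENNReal.ofReal (dr hf x ^ (1 - p)) < ⊤ := by
  have hr : (-1 : ℝ) < 1 - p := by linarith
  have k0 : IntervalIntegrable (fun x : ℝ => x ^ (1 - p)) volume 0 2 :=
    intervalIntegral.intervalIntegrable_rpow' hr
  have k1 : IntegrableOn (fun x : ℝ => (1 - x) ^ (1 - p)) (Ioo (-1 : ℝ) 1) := by
    have h1 := (k0.comp_sub_left 1).symm
    rw [show (1 : ℝ) - 2 = -1 by norm_num, show (1 : ℝ) - 0 = 1 by norm_num] at h1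
    exact (intervalIntegrable_iff_integrableOn_Ioo_of_le (by norm_num)).1 h1
  have k2 : IntegrableOn (fun x : ℝ => (1 + x) ^ (1 - p)) (Ioo (-1 : ℝ) 1) := by
    have h1 := k0.comp_add_left 1
    rw [show (0 : ℝ) - 1 = -1 by norm_num, show (2 : ℝ) - 1 = 1 by norm_num] at h1
    exact (intervalIntegrable_iff_integrableOn_Ioo_of_le (by norm_num)).1 h1
  have k3 : IntegrableOn (fun x : ℝ => 4 ^ (p - 1) * ((1 - x) ^ (1 - p) + (1 + x) ^ (1 - p)))
      (Ioo (-1 : ℝ) 1) := (k1.add k2).const_mul _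
  refine lt_of_le_of_lt (setLIntegral_mono' measurableSet_Ioo fun x hx => ?_)
    (Integrable.lintegral_lt_top k3)
  refine ENNReal.ofReal_le_ofReal ?_
  have h4 : (0 : ℝ) ≤ 4 ^ (p - 1) := by positivity
  have hxl : -1 < x := hx.1
  have hxu : x < 1 := hx.2
  have h5 : (0 : ℝ) ≤ (1 - x) ^ (1 - p) := Real.rpow_nonneg (by linarith) _
  have h6 : (0 : ℝ) ≤ (1 + x) ^ (1 - p) := Real.rpow_nonneg (by linarith) _
  rw [ExtA_pow (abs_lt.2 ⟨hxl, hxu⟩), mul_add]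
  have h7 := mul_nonneg h4 h5
  have h8 := mul_nonneg h4 h6
  rcases le_total 0 x with h | h
  · have := ExtA_half hp h hxu
    linarith
  · have := ExtA_half (x := -x) hp (by linarith) (by linarith)
    rw [neg_sq, sub_neg_eq_add] at this
    linarith

end Pool.Agent.H.MP_215299_an.RC
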