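import Pool.Agent.H.MP_215299_an.RC.Defs

/-!
# The Koebe function

`z / (1 - z)^2 = w / (1 - w)^2` gives `(z - w) (1 - z w) = 0`. `f' = (1 + z) / (1 - z)^3`; `(1 + x) / (1 - x)^3 = (1 - x^2) / (1 - x)^4`.
-/

set_option autoImplicit false

open Metric Set MeasureTheory Filter
open scoped ENNReal Topology ComplexConjugate

namespace Pool.Agent.H.MP_215299_an.RC

private theorem ExtB_hasDeriv {z : ℂ} (hz : z ≠ 1) :
    HasDerivAt kf ((1 + z) / (1 - z) ^ 3) z := by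
  have h1 : (1 - z) ≠ 0 := sub_ne_zero.mpr (Ne.symm hz)
  have h2 : HasDerivAt (fun w : ℂ => 1 - w) (-1) z := by
    simpa using (hasDerivAt_id z).const_sub 1
  have h3 : HasDerivAt (fun w : ℂ => (1 - w) ^ 2) (2 * (1 - z) * (-1)) z := by
    have h := h2.pow 2
    have e : ((2 : ℕ) : ℂ) * (1 - z) ^ (2 - 1) * (-1) = 2 * (1 - z) * (-1) := by norm_num
    rw [e] at h
    exact h
  have h4 : HasDerivAt (fun w : ℂ => w / (1 - w) ^ 2)
      ((1 * (1 - z) ^ 2 - z * (2 * (1 - z) * (-1))) / ((1 - z) ^ 2) ^ 2) z :=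
    (hasDerivAt_id z).div h3 (pow_ne_zero 2 h1)
  have h5 : (1 * (1 - z) ^ 2 - z * (2 * (1 - z) * (-1))) / ((1 - z) ^ 2) ^ 2 =
      (1 + z) / (1 - z) ^ 3 := by
    field_simp
    ring
  rw [h5] at h4
  exact h4

private theorem ExtB_ne {z : ℂ} (hz : z ∈ ball (0 : ℂ) 1) : z ≠ 1 := by
  rintro rfl
  simp at hz

theorem ru_kf : RU kf := by
  refine ⟨?_, ?_, ?_, ?_, ?_⟩
  · intro z hz
    exact (ExtB_hasDeriv (ExtB_ne hz)).differentiableAt.differentiableWithinAt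
  · intro z hz w hw h
    have hz1 : (1 - z) ≠ 0 := sub_ne_zero.mpr (Ne.symm (ExtB_ne hz))
    have hw1 : (1 - w) ≠ 0 := sub_ne_zero.mpr (Ne.symm (ExtB_ne hw))
    have h' : z / (1 - z) ^ 2 = w / (1 - w) ^ 2 := h
    rw [div_eq_div_iff (pow_ne_zero 2 hz1) (pow_ne_zero 2 hw1)] at h'
    have h2 : (z - w) * (1 - z * w) = 0 := by linear_combination h'
    rcases mul_eq_zero.mp h2 with h3 | h3
    · exact sub_eq_zero.mp h3
    · exfalso
      have h4 : z * w = 1 := (sub_eq_zero.mp h3).symm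
      have h5 : ‖z‖ * ‖w‖ = 1 := by rw [← norm_mul, h4, norm_one]
      have h6 : ‖z‖ < 1 := by simpa using hz
      have h7 : ‖w‖ < 1 := by simpa using hw
      nlinarith [norm_nonneg z, norm_nonneg w]
  · simp [kf]
  · have := (ExtB_hasDeriv (z := 0) (by norm_num)).deriv
    rw [this]
    norm_num
  · intro x _
    have : kf (x : ℂ) = ((x / (1 - x) ^ 2 : ℝ) : ℂ) := by
      unfold kf
      push_cast
      rfl
    rw [this]
    exact Complex.ofReal_im _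

theorem dr_kf {x : ℝ} (hx : |x| < 1) : dr kf x = (1 + x) / (1 - x) ^ 3 := by
  have h1 : (x : ℂ) ≠ 1 := by
    intro h
    have : x = 1 := by exact_mod_cast h
    rw [this] at hx
    norm_num at hx
  unfold dr
  rw [(ExtB_hasDeriv h1).deriv]
  have : (1 + (x : ℂ)) / (1 - (x : ℂ)) ^ 3 = (((1 + x) / (1 - x) ^ 3 : ℝ) : ℂ) := by
    push_cast
    rfl
  rw [this]
  exact Complex.ofReal_re _

private theorem ExtB_pow {p x : ℝ} (hx : |x| < 1) :
    dr kf x ^ (1 - p) = ((1 - x) ^ 4 / (1 - x ^ 2)) ^ (p - 1) := by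
  obtain ⟨h1, h2⟩ := abs_lt.mp hx
  have ha : 0 < 1 + x := by linarith
  have hb : 0 < 1 - x := by linarith
  have hc : 1 - x ^ 2 = (1 - x) * (1 + x) := by ring
  rw [dr_kf hx]
  have h3 : (1 - x) ^ 4 / (1 - x ^ 2) = ((1 + x) / (1 - x) ^ 3)⁻¹ := by
    rw [hc]
    field_simp
  have h4 : 0 ≤ (1 + x) / (1 - x) ^ 3 := by positivity
  rw [h3, Real.inv_rpow h4, ← Real.rpow_neg h4]
  congr 1
  ring

theorem sum_kf {p x : ℝ} (hx : |x| < 1) : dr kf x ^ (1 - p) + dr kf (-x) ^ (1 - p) = mk p x := by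
  have hx' : |(-x)| < 1 := by rwa [abs_neg]
  rw [ExtB_pow hx, ExtB_pow hx']
  unfold mk
  congr 2
  ring

/-- the integral is finite: `((1 - x)^3 / (1 + x)) ^ (p - 1) ≤ (8 / (1 + x)) ^ (p - 1)`, `p - 1 < 1` -/
theorem fin_kf {p : ℝ} (hp : 1 ≤ p) (hp2 : p < 2) :
    ∫⁻ x in Ioo (-1 : ℝ) 1, ENNReal.ofReal (dr kf x ^ (1 - p)) < ⊤ := by
  have hI : IntervalIntegrable (fun x : ℝ => x ^ (1 - p)) volume 0 2 :=
    intervalIntegral.intervalIntegrable_rpow' (by linarith)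
  have hI2 := hI.comp_add_right 1
  have hI3 : IntervalIntegrable (fun x : ℝ => (8 : ℝ) ^ (p - 1) * (x + 1) ^ (1 - p)) volume
      (0 - 1) (2 - 1) := hI2.const_mul _
  have e1 : (0 : ℝ) - 1 = -1 := by norm_num
  have e2 : (2 : ℝ) - 1 = 1 := by norm_num
  rw [e1, e2, intervalIntegrable_iff_integrableOn_Ioo_of_le (by norm_num)] at hI3
  refine lt_of_le_of_lt ?_ hI3.lintegral_lt_top
  refine setLIntegral_mono' measurableSet_Ioo ?_
  intro x hx
  refine ENNReal.ofReal_le_ofReal ?_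
  obtain ⟨h1, h2⟩ := hx
  have hax : |x| < 1 := abs_lt.mpr ⟨h1, h2⟩
  have ha : 0 < 1 + x := by linarith
  have hb : 0 < 1 - x := by linarith
  have hc : 1 - x ^ 2 = (1 - x) * (1 + x) := by ring
  rw [ExtB_pow hax]
  have h3 : (1 - x) ^ 4 / (1 - x ^ 2) = (1 - x) ^ 3 / (1 + x) := by
    rw [hc]
    field_simp
  have h4 : (1 - x) ^ 3 ≤ 8 := by
    have h5 : 1 - x ≤ 2 := by linarith
    calc (1 - x) ^ 3 ≤ 2 ^ 3 := pow_le_pow_left₀ hb.le h5 3
      _ = 8 := by norm_num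
  rw [h3]
  calc ((1 - x) ^ 3 / (1 + x)) ^ (p - 1) ≤ (8 / (1 + x)) ^ (p - 1) := by
        refine Real.rpow_le_rpow (by positivity) ?_ (by linarith)
        gcongr
    _ = (8 : ℝ) ^ (p - 1) * (x + 1) ^ (1 - p) := by
        rw [Real.div_rpow (by norm_num) ha.le, div_eq_mul_inv, ← Real.rpow_neg ha.le]
        congr 2
        · ring
        · ring

end Pool.Agent.H.MP_215299_an.RC
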