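import Pool.Agent.H.MP_215299_an.RC.Defs

/-!
# The two halves of the interval

`Ioo (-1) 1` is the disjoint union of `Ioo (-1) 0`, `{0}` (null) and `Ioo 0 1`; reflect the first part (`MeasurePreserving` of `Neg.neg`,
`Measure.measurePreserving_neg`), then `lintegral_add_left'` (measurability of `φ` on the interval).
-/

set_option autoImplicit false

open Metric Set MeasureTheory Filter
open scoped ENNReal Topology ComplexConjugate

namespace Pool.Agent.H.MP_215299_an.RC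

theorem half {φ : ℝ → ℝ} (hφ : ContinuousOn φ (Ioo (-1) 1)) :
    ∫⁻ x in Ioo (-1 : ℝ) 1, ENNReal.ofReal (φ x) =
      ∫⁻ x in Ioo (0 : ℝ) 1, (ENNReal.ofReal (φ x) + ENNReal.ofReal (φ (-x))) := by
  have hsplit : Ioo (-1 : ℝ) 1 = Ioc (-1 : ℝ) 0 ∪ Ioo (0 : ℝ) 1 :=
    (Ioc_union_Ioo_eq_Ioo (by norm_num) (by norm_num)).symm
  have hdisj : Disjoint (Ioc (-1 : ℝ) 0) (Ioo (0 : ℝ) 1) := by
    rw [Set.disjoint_left]
    intro x hx hx2
    exact absurd hx2.1 (not_lt.2 hx.2)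
  have h1 : ∫⁻ x in Ioo (-1 : ℝ) 1, ENNReal.ofReal (φ x) =
      (∫⁻ x in Ioc (-1 : ℝ) 0, ENNReal.ofReal (φ x)) +
        ∫⁻ x in Ioo (0 : ℝ) 1, ENNReal.ofReal (φ x) := by
    rw [hsplit, lintegral_union measurableSet_Ioo hdisj]
  have h2 : ∫⁻ x in Ioc (-1 : ℝ) 0, ENNReal.ofReal (φ x) =
      ∫⁻ x in Ioo (-1 : ℝ) 0, ENNReal.ofReal (φ x) := by
    rw [restrict_Ioo_eq_restrict_Ioc]
  have h3 : ∫⁻ x in Ioo (-1 : ℝ) 0, ENNReal.ofReal (φ x) =
      ∫⁻ x in Ioo (0 : ℝ) 1, ENNReal.ofReal (φ (-x)) := by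
    have hp := (Measure.measurePreserving_neg (volume : Measure ℝ)).setLIntegral_comp_preimage_emb
      (MeasurableEquiv.neg ℝ).measurableEmbedding (fun x => ENNReal.ofReal (φ x)) (Ioo (-1 : ℝ) 0)
    have hpre : (Neg.neg : ℝ → ℝ) ⁻¹' Ioo (-1 : ℝ) 0 = Ioo (0 : ℝ) 1 := by
      ext x
      simp only [mem_preimage, mem_Ioo]
      constructor
      · rintro ⟨h, h'⟩
        constructor <;> linarith
      · rintro ⟨h, h'⟩
        constructor <;> linarith
    rw [hpre] at hp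
    exact hp.symm
  have hmeas : AEMeasurable (fun x : ℝ => ENNReal.ofReal (φ x))
      (volume.restrict (Ioo (0 : ℝ) 1)) := by
    have hc : ContinuousOn φ (Ioo (0 : ℝ) 1) :=
      hφ.mono (Ioo_subset_Ioo (by norm_num) le_rfl)
    exact (hc.aemeasurable measurableSet_Ioo).ennreal_ofReal
  rw [h1, h2, h3, lintegral_add_left' hmeas, add_comm]

end Pool.Agent.H.MP_215299_an.RC
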