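import Pool.Agent.H.MP_215299_an.RC.Defs

/-!
# Jensen

`m = (2 π)⁻¹ ∫ w B > 0`: `B` has a positive minimum `b` on `[0, 2 π]`, `m ≥ b`. For `y > 0`: `y ^ (1 - p) ≥ m ^ (1 - p) + (1 - p) m ^ (-p) (y - m)` (convexity of `y ^ (1 - p)`,
a tangent line; for example from `one_add_mul_self_le_rpow_one_add` type (Bernoulli) inequalities for `s = y / m - 1`, exponent `1 - p ≤ 0`:
`Real.one_add_mul_self_lt_rpow_one_add`, `Real.rpow_one_add_le_one_add_mul_self`, or with `1 / u`, or use `convexOn_rpow_left`/`ConvexOn.map_average_le`). Multiply by `w t`, integrate.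
-/

set_option autoImplicit false

open Metric Set MeasureTheory Filter
open scoped ENNReal Topology ComplexConjugate

namespace Pool.Agent.H.MP_215299_an.RC

private theorem JenG_tan {x q : ℝ} (hx : 0 < x) (hq : q ≤ 0) : 1 + q * (x - 1) ≤ x ^ q := by
  rw [Real.rpow_def_of_pos hx]
  have h1 := Real.add_one_le_exp (Real.log x * q)
  have h2 := Real.log_le_sub_one_of_pos hx
  nlinarith

theorem jenG {w B : ℝ → ℝ} (hw : Continuous w) (hB : Continuous B) (hw0 : ∀ t, 0 ≤ w t)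
    (hB0 : ∀ t, 0 < B t) (hm : (2 * Real.pi)⁻¹ * ∫ t in (0 : ℝ)..2 * Real.pi, w t = 1) {p : ℝ}
    (hp : 1 ≤ p) : 0 < (2 * Real.pi)⁻¹ * ∫ t in (0 : ℝ)..2 * Real.pi, w t * B t ∧
      ((2 * Real.pi)⁻¹ * ∫ t in (0 : ℝ)..2 * Real.pi, w t * B t) ^ (1 - p) ≤
        (2 * Real.pi)⁻¹ * ∫ t in (0 : ℝ)..2 * Real.pi, w t * B t ^ (1 - p) := by
  have hpi : 0 < 2 * Real.pi := by positivity
  have hpi' : 0 < (2 * Real.pi)⁻¹ := by positivity
  obtain ⟨t0, -, ht0⟩ := isCompact_Icc.exists_isMinOn (nonempty_Icc.2 hpi.le) hB.continuousOn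
  have hmin : ∀ t ∈ Icc (0 : ℝ) (2 * Real.pi), B t0 ≤ B t := fun t ht => ht0 ht
  have hwB : Continuous fun t => w t * B t := hw.mul hB
  have hm0 : 0 < (2 * Real.pi)⁻¹ * ∫ t in (0 : ℝ)..2 * Real.pi, w t * B t := by
    have h1 : ∫ t in (0 : ℝ)..2 * Real.pi, w t * B t0 ≤ ∫ t in (0 : ℝ)..2 * Real.pi, w t * B t := by
      refine intervalIntegral.integral_mono_on hpi.le
        ((hw.mul continuous_const).intervalIntegrable _ _) (hwB.intervalIntegrable _ _) ?_
      intro t ht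
      exact mul_le_mul_of_nonneg_left (hmin t ht) (hw0 t)
    rw [intervalIntegral.integral_mul_const] at h1
    have h2 := mul_le_mul_of_nonneg_left h1 hpi'.le
    rw [← mul_assoc, hm, one_mul] at h2
    exact (hB0 t0).trans_le h2
  refine ⟨hm0, ?_⟩
  obtain ⟨m, hmdef⟩ : ∃ m, m = (2 * Real.pi)⁻¹ * ∫ t in (0 : ℝ)..2 * Real.pi, w t * B t := ⟨_, rfl⟩
  rw [← hmdef] at hm0 ⊢
  have hq : 1 - p ≤ 0 := by linarith
  have hmq : 0 < m ^ (1 - p) := Real.rpow_pos_of_pos hm0 _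
  have hBq : Continuous fun t => w t * B t ^ (1 - p) :=
    hw.mul (hB.rpow_const fun t => Or.inl (hB0 t).ne')
  have hpt : ∀ t, m ^ (1 - p) * (1 - (1 - p)) * w t + m ^ (1 - p) * (1 - p) * m⁻¹ * (w t * B t) ≤
      w t * B t ^ (1 - p) := by
    intro t
    have h1 := JenG_tan (div_pos (hB0 t) hm0) hq
    rw [Real.div_rpow (hB0 t).le hm0.le, le_div_iff₀ hmq] at h1
    have h2 := mul_le_mul_of_nonneg_left h1 (hw0 t)
    refine le_trans (le_of_eq ?_) h2
    field_simp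
    ring
  have hint : ∫ t in (0 : ℝ)..2 * Real.pi, (m ^ (1 - p) * (1 - (1 - p)) * w t +
      m ^ (1 - p) * (1 - p) * m⁻¹ * (w t * B t)) ≤
      ∫ t in (0 : ℝ)..2 * Real.pi, w t * B t ^ (1 - p) := by
    refine intervalIntegral.integral_mono_on hpi.le ?_ (hBq.intervalIntegrable _ _)
      fun t _ => hpt t
    exact ((continuous_const.mul hw).add (continuous_const.mul hwB)).intervalIntegrable _ _
  have hi1 : IntervalIntegrable (fun t => m ^ (1 - p) * (1 - (1 - p)) * w t) volume 0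
      (2 * Real.pi) := (continuous_const.mul hw).intervalIntegrable _ _
  have hi2 : IntervalIntegrable (fun t => m ^ (1 - p) * (1 - p) * m⁻¹ * (w t * B t)) volume 0
      (2 * Real.pi) := (continuous_const.mul hwB).intervalIntegrable _ _
  rw [intervalIntegral.integral_add hi1 hi2, intervalIntegral.integral_const_mul,
    intervalIntegral.integral_const_mul] at hint
  have h3 := mul_le_mul_of_nonneg_left hint hpi'.le
  refine le_trans (le_of_eq ?_) h3
  have e1 : (2 * Real.pi)⁻¹ * (m ^ (1 - p) * (1 - (1 - p)) * (∫ t in (0 : ℝ)..2 * Real.pi, w t) +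
      m ^ (1 - p) * (1 - p) * m⁻¹ * ∫ t in (0 : ℝ)..2 * Real.pi, w t * B t) =
      m ^ (1 - p) * (1 - (1 - p)) * ((2 * Real.pi)⁻¹ * ∫ t in (0 : ℝ)..2 * Real.pi, w t) +
      m ^ (1 - p) * (1 - p) * m⁻¹ * ((2 * Real.pi)⁻¹ *
        ∫ t in (0 : ℝ)..2 * Real.pi, w t * B t) := by ring
  rw [e1, hm, ← hmdef]
  field_simp
  ring

end Pool.Agent.H.MP_215299_an.RC
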