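import Pool.Agent.H.MP_215299_an.RC.RepC
import Pool.Agent.H.MP_215299_an.RC.JenG

/-!
# The bound for the sum at `x` and `-x`

`wt f ρ` has mean 1: `rep` for `x = 0`, `A 0 t = 1`, `dr f 0 = 1`. `A x` is continuous and positive for `|x| < 1` (denominator
`1 - 2 x cos t + x^2 ≥ (1 - |x|)^2 > 0`). `jenG` for `B = A x` and `B = A (-x)`, `rep` for `x` and `-x`; add and use `hM` under the integral.
-/

set_option autoImplicit false

open Metric Set MeasureTheory Filter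
open scoped ENNReal Topology ComplexConjugate

namespace Pool.Agent.H.MP_215299_an.RC

theorem Jen_den {x : ℝ} (hx : |x| < 1) (t : ℝ) : 0 < 1 - 2 * x * Real.cos t + x ^ 2 := by
  have h1 : |x * Real.cos t| ≤ |x| := by
    rw [abs_mul]
    exact mul_le_of_le_one_right (abs_nonneg x) (Real.abs_cos_le_one t)
  have h2 := le_abs_self (x * Real.cos t)
  have h3 : x ^ 2 = |x| ^ 2 := (sq_abs x).symm
  have h4 : 0 < (1 - |x|) ^ 2 := by
    have : 0 < 1 - |x| := by linarith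
    positivity
  rw [h3]
  nlinarith

theorem Jen_num {x : ℝ} (hx : |x| < 1) : 0 < 1 - x ^ 2 := by
  have h3 : x ^ 2 = |x| ^ 2 := (sq_abs x).symm
  have h4 := abs_nonneg x
  rw [h3]
  nlinarith

theorem A_pos {x : ℝ} (hx : |x| < 1) (t : ℝ) : 0 < A x t := by
  unfold A
  exact div_pos (Jen_num hx) (pow_pos (Jen_den hx t) 2)

theorem A_cont {x : ℝ} (hx : |x| < 1) : Continuous (A x) := by
  unfold A
  refine Continuous.div continuous_const ?_ ?_
  · fun_prop
  · intro t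
    exact (pow_pos (Jen_den hx t) 2).ne'

theorem Jen_mean {f : ℂ → ℂ} (h : RU f) {ρ : ℝ} (h0 : 0 < ρ) (h1 : ρ < 1) :
    (2 * Real.pi)⁻¹ * ∫ t in (0 : ℝ)..2 * Real.pi, wt f ρ t = 1 := by
  have h2 := rep h h0 h1 (x := 0) (by simp)
  have e1 : ∀ t : ℝ, wt f ρ t * A 0 t = wt f ρ t := by
    intro t
    have : A 0 t = 1 := by
      unfold A
      norm_num
    rw [this, mul_one]
  simp only [e1] at h2
  rw [← h2]
  unfold dr
  have e2 : ((ρ * 0 : ℝ) : ℂ) = 0 := by simp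
  rw [e2, h.one]
  simp

theorem dr_pos' {f : ℂ → ℂ} (h : RU f) {ρ x : ℝ} (h0 : 0 < ρ) (h1 : ρ < 1) (hx : |x| < 1) :
    0 < dr f (ρ * x) := by
  rw [rep h h0 h1 hx]
  exact (jenG (wt_cont h h0 h1) (A_cont hx) (wt_nonneg h h0 h1) (A_pos hx) (Jen_mean h h0 h1)
    (le_refl (1 : ℝ))).1

theorem jen {f : ℂ → ℂ} (h : RU f) {ρ x p M : ℝ} (h0 : 0 < ρ) (h1 : ρ < 1) (hx : |x| < 1)
    (hp : 1 ≤ p) (hM : ∀ t, A x t ^ (1 - p) + A (-x) t ^ (1 - p) ≤ M) :
    dr f (ρ * x) ^ (1 - p) + dr f (-(ρ * x)) ^ (1 - p) ≤ M := by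
  have hx' : |-x| < 1 := by rw [abs_neg]; exact hx
  have e : -(ρ * x) = ρ * (-x) := by ring
  have hw := wt_cont h h0 h1
  have hw0 := wt_nonneg h h0 h1
  have hm := Jen_mean h h0 h1
  have h2 := (jenG hw (A_cont hx) hw0 (A_pos hx) hm hp).2
  have h3 := (jenG hw (A_cont hx') hw0 (A_pos hx') hm hp).2
  rw [← rep h h0 h1 hx] at h2
  rw [← rep h h0 h1 hx'] at h3
  rw [e]
  have c1 : Continuous fun t => A x t ^ (1 - p) :=
    (A_cont hx).rpow_const fun t => Or.inl (A_pos hx t).ne'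
  have c2 : Continuous fun t => A (-x) t ^ (1 - p) :=
    (A_cont hx').rpow_const fun t => Or.inl (A_pos hx' t).ne'
  have i1 : IntervalIntegrable (fun t => wt f ρ t * A x t ^ (1 - p)) volume 0 (2 * Real.pi) :=
    (hw.mul c1).intervalIntegrable _ _
  have i2 : IntervalIntegrable (fun t => wt f ρ t * A (-x) t ^ (1 - p)) volume 0 (2 * Real.pi) :=
    (hw.mul c2).intervalIntegrable _ _
  have i3 : IntervalIntegrable (fun t => wt f ρ t * M) volume 0 (2 * Real.pi) :=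
    (hw.mul continuous_const).intervalIntegrable _ _
  have hpi : (0 : ℝ) ≤ 2 * Real.pi := by positivity
  have h4 : (∫ t in (0 : ℝ)..2 * Real.pi, wt f ρ t * A x t ^ (1 - p)) +
      (∫ t in (0 : ℝ)..2 * Real.pi, wt f ρ t * A (-x) t ^ (1 - p)) ≤
      ∫ t in (0 : ℝ)..2 * Real.pi, wt f ρ t * M := by
    rw [← intervalIntegral.integral_add i1 i2]
    refine intervalIntegral.integral_mono_on hpi (i1.add i2) i3 fun t _ => ?_
    rw [← mul_add]
    exact mul_le_mul_of_nonneg_left (hM t) (hw0 t)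
  rw [intervalIntegral.integral_mul_const] at h4
  have h5 : 0 ≤ (2 * Real.pi)⁻¹ := by positivity
  have h6 := mul_le_mul_of_nonneg_left h4 h5
  rw [mul_add] at h6
  have h7 : (2 * Real.pi)⁻¹ * ((∫ t in (0 : ℝ)..2 * Real.pi, wt f ρ t) * M) = M := by
    rw [← mul_assoc, hm, one_mul]
  rw [h7] at h6
  linarith

end Pool.Agent.H.MP_215299_an.RC
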