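import Pool.Agent.H.MP_215299_an.RC.ChgB
import Pool.Agent.H.MP_215299_an.RC.ExtA
import Pool.Agent.H.MP_215299_an.RC.ExtB
import Pool.Agent.H.MP_215299_an.RC.Half

/-!
# The sharp bounds
-/

set_option autoImplicit false

open Metric Set MeasureTheory Filter
open scoped ENNReal Topology ComplexConjugate

namespace Pool.Agent.H.MP_215299_an.RC

theorem cmp {f g : ℂ → ℂ} (hf : RU f) (hg : RU g) {p : ℝ}
    (h : ∀ x : ℝ, |x| < 1 → dr f x ^ (1 - p) + dr f (-x) ^ (1 - p) ≤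
      dr g x ^ (1 - p) + dr g (-x) ^ (1 - p)) :
    ∫⁻ x in Ioo (-1 : ℝ) 1, ENNReal.ofReal (dr f x ^ (1 - p)) ≤
      ∫⁻ x in Ioo (-1 : ℝ) 1, ENNReal.ofReal (dr g x ^ (1 - p)) := by
  have hc : ∀ {g : ℂ → ℂ}, RU g → ContinuousOn (fun x => dr g x ^ (1 - p)) (Ioo (-1) 1) := by
    intro g hg
    exact (dr_cont hg).rpow_const fun x hx => Or.inl (dr_pos hg (abs_lt.2 hx)).ne'
  rw [half (hc hf), half (hc hg)]
  refine setLIntegral_mono' measurableSet_Ioo fun x hx => ?_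
  have hx1 : |x| < 1 := abs_lt.2 ⟨by linarith [hx.1], hx.2⟩
  have hx2 : |-x| < 1 := by rwa [abs_neg]
  rw [← ENNReal.ofReal_add (Real.rpow_nonneg (dr_pos hf hx1).le _)
    (Real.rpow_nonneg (dr_pos hf hx2).le _),
    ← ENNReal.ofReal_add (Real.rpow_nonneg (dr_pos hg hx1).le _)
    (Real.rpow_nonneg (dr_pos hg hx2).le _)]
  exact ENNReal.ofReal_le_ofReal (h x hx1)

/-- The bound for `p ≤ 3 / 2`. -/
theorem main_h {f F H : ℂ → ℂ} (hf : RU f) (hF : ∀ z ∈ ball (0 : ℂ) 1, F (f z) = z)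
    (hH : ∀ z ∈ ball (0 : ℂ) 1, H (Pool.Agent.H.MP_215299_an.RC.hf z) = z) {p : ℝ} (hp : 1 ≤ p)
    (hp2 : p ≤ 3 / 2) :
    ∫⁻ x in {x : ℝ | (x : ℂ) ∈ f '' ball (0 : ℂ) 1}, ENNReal.ofReal (‖deriv F (x : ℂ)‖ ^ p) ≤
      ∫⁻ x in {x : ℝ | (x : ℂ) ∈ Pool.Agent.H.MP_215299_an.RC.hf '' ball (0 : ℂ) 1},
        ENNReal.ofReal (‖deriv H (x : ℂ)‖ ^ p) := by
  rw [chg hf hF, chg ru_hf hH]
  refine cmp hf ru_hf fun x hx => ?_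
  rw [sum_hf hx]
  exact pair_h hf hp hp2 hx

/-- The bound for `p ≥ 3 / 2`. -/
theorem main_k {f F K : ℂ → ℂ} (hf : RU f) (hF : ∀ z ∈ ball (0 : ℂ) 1, F (f z) = z)
    (hK : ∀ z ∈ ball (0 : ℂ) 1, K (kf z) = z) {p : ℝ} (hp : 3 / 2 ≤ p) :
    ∫⁻ x in {x : ℝ | (x : ℂ) ∈ f '' ball (0 : ℂ) 1}, ENNReal.ofReal (‖deriv F (x : ℂ)‖ ^ p) ≤
      ∫⁻ x in {x : ℝ | (x : ℂ) ∈ kf '' ball (0 : ℂ) 1},
        ENNReal.ofReal (‖deriv K (x : ℂ)‖ ^ p) := by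
  rw [chg hf hF, chg ru_kf hK]
  refine cmp hf ru_kf fun x hx => ?_
  rw [sum_kf hx]
  exact pair_k hf hp hx

/-- The bound is finite. -/
theorem main_fin_h {H : ℂ → ℂ} (hH : ∀ z ∈ ball (0 : ℂ) 1, H (Pool.Agent.H.MP_215299_an.RC.hf z) = z)
    {p : ℝ} (hp : 1 ≤ p) (hp2 : p < 2) :
    ∫⁻ x in {x : ℝ | (x : ℂ) ∈ Pool.Agent.H.MP_215299_an.RC.hf '' ball (0 : ℂ) 1},
      ENNReal.ofReal (‖deriv H (x : ℂ)‖ ^ p) < ⊤ := by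
  rw [chg ru_hf hH]
  exact fin_hf hp hp2

theorem main_fin_k {K : ℂ → ℂ} (hK : ∀ z ∈ ball (0 : ℂ) 1, K (kf z) = z) {p : ℝ} (hp : 1 ≤ p)
    (hp2 : p < 2) : ∫⁻ x in {x : ℝ | (x : ℂ) ∈ kf '' ball (0 : ℂ) 1},
      ENNReal.ofReal (‖deriv K (x : ℂ)‖ ^ p) < ⊤ := by
  rw [chg ru_kf hK]
  exact fin_kf hp hp2

end Pool.Agent.H.MP_215299_an.RC
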