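import Pool.Agent.H.MP_215299_an.RC.Defs

/-!
# The formula of Cauchy for the derivative

`g z = f (ρ z) / ρ` is holomorphic for `‖z‖ < 1 / ρ`, `g' x = f' (ρ x)`. Cauchy: `g' x = (2 π i)⁻¹ ∮ g ζ / (ζ - x)^2 dζ` over `|ζ| = 1`
(`DiffContOnCl.circleIntegral_sub_inv_smul` for the function and its derivative: Mathlib has `Complex.two_pi_I_inv_smul_circleIntegral_sub_sq_inv_smul_of_differentiable`
in Mathlib/Analysis/Complex/Liouville or RemovableSingularity: `(2πi)⁻¹ • ∮ z in C(c, R), ((z - w₀) ^ 2)⁻¹ • f z = deriv f w₀`), `ζ = e^{it}`,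
`dζ = i e^{it} dt` (`circleIntegral` unfolds to this).
-/

set_option autoImplicit false

open Metric Set MeasureTheory Filter
open scoped ENNReal Topology ComplexConjugate

namespace Pool.Agent.H.MP_215299_an.RC

theorem repA {f : ℂ → ℂ} (hf : DifferentiableOn ℂ f (ball 0 1)) {ρ x : ℝ} (h0 : 0 < ρ)
    (h1 : ρ < 1) (hx : |x| < 1) : deriv f ((ρ * x : ℝ) : ℂ) = (2 * Real.pi : ℂ)⁻¹ *
      ∫ t in (0 : ℝ)..2 * Real.pi, f (ρ * Complex.exp (t * Complex.I)) / ρ * kap x t := by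
  have hρ : (ρ : ℂ) ≠ 0 := by exact_mod_cast h0.ne'
  have hc : closedBall (0 : ℂ) 1 ⊆ ball 0 (1 / ρ) :=
    closedBall_subset_ball (by rw [lt_div_iff₀ h0]; linarith)
  have hmap : MapsTo (fun z : ℂ => (ρ : ℂ) * z) (ball (0 : ℂ) (1 / ρ)) (ball (0 : ℂ) 1) := by
    intro z hz
    rw [mem_ball_zero_iff] at hz ⊢
    rw [norm_mul, Complex.norm_real, Real.norm_of_nonneg h0.le]
    rw [lt_div_iff₀ h0] at hz
    linarith [mul_comm ρ ‖z‖]
  have hg : DifferentiableOn ℂ (fun z : ℂ => f (ρ * z) / ρ) (ball 0 (1 / ρ)) :=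
    (hf.comp (differentiable_id.const_mul (ρ : ℂ)).differentiableOn hmap).div_const _
  have hx1 : (x : ℂ) ∈ ball (0 : ℂ) 1 := by
    rw [mem_ball_zero_iff, Complex.norm_real]
    exact hx
  have key := Complex.two_pi_I_inv_smul_circleIntegral_sub_sq_inv_smul_of_differentiable
    isOpen_ball hc hg hx1
  have hd : deriv (fun z : ℂ => f (ρ * z) / ρ) x = deriv f ((ρ * x : ℝ) : ℂ) := by
    have h2 : (ρ : ℂ) * x ∈ ball (0 : ℂ) 1 := hmap (hc (ball_subset_closedBall hx1))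
    have h3 : HasDerivAt f (deriv f ((ρ : ℂ) * x)) ((ρ : ℂ) * x) :=
      (hf.differentiableAt (isOpen_ball.mem_nhds h2)).hasDerivAt
    have h4 : HasDerivAt (fun z : ℂ => (ρ : ℂ) * z) (ρ * 1) (x : ℂ) :=
      (hasDerivAt_id (x : ℂ)).const_mul (ρ : ℂ)
    have h5 := (h3.comp (x : ℂ) h4).div_const (ρ : ℂ)
    have h6 : deriv f ((ρ : ℂ) * x) * (ρ * 1) / ρ = deriv f ((ρ : ℂ) * x) := by
      field_simp
    rw [h6] at h5
    rw [Complex.ofReal_mul]
    exact h5.deriv
  rw [← hd, ← key]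
  unfold circleIntegral
  rw [smul_eq_mul, mul_inv, mul_assoc, ← intervalIntegral.integral_const_mul]
  congr 1
  refine intervalIntegral.integral_congr fun t _ => ?_
  have h7 : circleMap 0 1 t = Complex.exp (t * Complex.I) := by
    simp [circleMap]
  simp only [deriv_circleMap, h7, smul_eq_mul]
  unfold kap
  have hI : Complex.I⁻¹ * Complex.I = 1 := inv_mul_cancel₀ Complex.I_ne_zero
  calc Complex.I⁻¹ * (Complex.exp (t * Complex.I) * Complex.I *
        (((Complex.exp (t * Complex.I) - x) ^ 2)⁻¹ * (f (ρ * Complex.exp (t * Complex.I)) / ρ)))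
      = (Complex.I⁻¹ * Complex.I) * (Complex.exp (t * Complex.I) *
        (((Complex.exp (t * Complex.I) - x) ^ 2)⁻¹ * (f (ρ * Complex.exp (t * Complex.I)) / ρ))) := by
        ring
    _ = _ := by
        rw [hI, one_mul, div_eq_mul_inv (Complex.exp (t * Complex.I))]
        ring

end Pool.Agent.H.MP_215299_an.RC
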