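import Pool.Agent.H.MP_215299_an.RC.Defs

/-!
# The reflected formula

On `|ζ| = 1`, `conj (kap x t) = ζ / (1 - x ζ)^2` for `ζ = e^{it}` (`conj ζ = 1 / ζ`). The function `g ζ / (1 - x ζ)^2`, `g ζ = f (ρ ζ) / ρ`, is holomorphic
on a neighbourhood of the closed unit disc, so `∮ g ζ / (1 - x ζ)^2 dζ = 0` (`Complex.circleIntegral_eq_zero_of_differentiable_on_off_countable`
or `DiffContOnCl` version), and `dζ = i ζ dt`.
-/

set_option autoImplicit false

open Metric Set MeasureTheory Filter
open scoped ENNReal Topology ComplexConjugate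

namespace Pool.Agent.H.MP_215299_an.RC

theorem repB {f : ℂ → ℂ} (hf : DifferentiableOn ℂ f (ball 0 1)) {ρ x : ℝ} (h0 : 0 < ρ)
    (h1 : ρ < 1) (hx : |x| < 1) :
    ∫ t in (0 : ℝ)..2 * Real.pi, f (ρ * Complex.exp (t * Complex.I)) / ρ * conj (kap x t) = 0 := by
  set G : ℂ → ℂ := fun z => f (ρ * z) / ρ / (1 - x * z) ^ 2 with hG
  have hne : ∀ z : ℂ, ‖z‖ ≤ 1 → (1 - (x : ℂ) * z) ^ 2 ≠ 0 := by
    intro z hz h
    have h2 : (x : ℂ) * z = 1 := by
      have := pow_eq_zero_iff (two_ne_zero) |>.1 h
      exact (sub_eq_zero.1 this).symm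
    have h3 : ‖(x : ℂ) * z‖ = 1 := by rw [h2]; simp
    rw [norm_mul, Complex.norm_real, Real.norm_eq_abs] at h3
    nlinarith [abs_nonneg x, norm_nonneg z, mul_le_mul_of_nonneg_left hz (abs_nonneg x)]
  have hd : ∀ z : ℂ, ‖z‖ ≤ 1 → DifferentiableAt ℂ G z := by
    intro z hz
    have hm : (ρ : ℂ) * z ∈ ball (0 : ℂ) 1 := by
      rw [mem_ball_zero_iff, norm_mul, Complex.norm_real, Real.norm_eq_abs, abs_of_pos h0]
      nlinarith [norm_nonneg z]
    have e1 : DifferentiableAt ℂ (fun z : ℂ => f (ρ * z)) z := by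
      have := (hf.differentiableAt (isOpen_ball.mem_nhds hm))
      exact this.comp z ((differentiableAt_const _).mul differentiableAt_id)
    exact (e1.div_const _).div (by fun_prop) (hne z hz)
  have hI : (∮ z in C(0, 1), G z) = 0 := by
    refine Complex.circleIntegral_eq_zero_of_differentiable_on_off_countable (by norm_num)
      countable_empty (fun z hz => (hd z (by simpa using hz)).continuousAt.continuousWithinAt)
      fun z hz => hd z (by have := hz.1; rw [mem_ball_zero_iff] at this; exact this.le)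
  rw [circleIntegral] at hI
  have hpt : ∀ t : ℝ, deriv (circleMap 0 1) t • G (circleMap 0 1 t) =
      Complex.I * (f (ρ * Complex.exp (t * Complex.I)) / ρ * conj (kap x t)) := by
    intro t
    set e := Complex.exp (t * Complex.I) with he
    have hen : ‖e‖ = 1 := Complex.norm_exp_ofReal_mul_I t
    have he0 : e ≠ 0 := Complex.exp_ne_zero _
    have hce : conj e = e⁻¹ := by
      rw [Complex.inv_def, Complex.normSq_eq_norm_sq, hen]; simp
    have hk : conj (kap x t) = e / (1 - x * e) ^ 2 := by
      rw [kap, ← he, map_div₀, map_pow, map_sub, hce, Complex.conj_ofReal]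
      have h3 := hne e hen.le
      have h4 : (1 - (x : ℂ) * e) ≠ 0 := fun h => h3 (by rw [h]; simp)
      rw [show e⁻¹ - (x : ℂ) = (1 - x * e) / e by field_simp]
      field_simp
    rw [hk, deriv_circleMap, smul_eq_mul]
    have hc : circleMap 0 1 t = e := by simp [circleMap, he]
    rw [hc, hG]
    simp only
    ring
  simp_rw [hpt] at hI
  rw [intervalIntegral.integral_const_mul] at hI
  exact (mul_eq_zero.1 hI).resolve_left Complex.I_ne_zero

end Pool.Agent.H.MP_215299_an.RC
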