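import Pool.Agent.H.MP_215299_an.RC.TypB
import Pool.Agent.H.MP_215299_an.RC.RepA
import Pool.Agent.H.MP_215299_an.RC.RepB

/-!
# The representation of the derivative

`(kap x t).im = - (1 - x^2) sin t / (1 - 2 x cos t + x^2)^2`: `kap = ζ (conj ζ - x)^2 / |ζ - x|^4` with `ζ = e^{it}`, the numerator is `conj ζ - 2 x + x^2 ζ`, and
`|ζ - x|^2 = 1 - 2 x cos t + x^2`. Subtract `repB` from `repA`: `f'(ρ x) = (2 π)⁻¹ ∫ g (kap - conj kap) = (2 π)⁻¹ ∫ g * (2 i (kap).im)`, `g = f(ρ e^{it})/ρ`, and take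
the real part: `re (g * 2 i k) = - 2 k g.im` (`k = (kap x t).im`; `Complex.re` commutes with the integral: `reCLM.intervalIntegral_comp_comm`; continuity of all
integrands in `t`: the denominator is not zero as `|x| < 1`).
-/

set_option autoImplicit false

open Metric Set MeasureTheory Filter
open scoped ENNReal Topology ComplexConjugate

namespace Pool.Agent.H.MP_215299_an.RC

private theorem den_pos {x t : ℝ} (hx : |x| < 1) : 0 < 1 - 2 * x * Real.cos t + x ^ 2 := by
  have h1 := Real.neg_one_le_cos t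
  have h2 := Real.cos_le_one t
  have h3 := abs_lt.1 hx
  rcases le_total 0 x with h | h
  · nlinarith [mul_nonneg h (sub_nonneg.2 h2), pow_pos (sub_pos.2 h3.2) 2]
  · nlinarith [mul_nonneg (neg_nonneg.2 h) (by linarith : (0 : ℝ) ≤ 1 + Real.cos t),
      pow_pos (by linarith [h3.1] : (0 : ℝ) < 1 + x) 2]

private theorem exp_sub_ne {x t : ℝ} (hx : |x| < 1) :
    Complex.exp (t * Complex.I) - x ≠ 0 := by
  intro h
  have h1 : Complex.exp (t * Complex.I) = x := sub_eq_zero.1 h
  have h2 : ‖Complex.exp (t * Complex.I)‖ = ‖(x : ℂ)‖ := by rw [h1]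
  rw [Complex.norm_exp_ofReal_mul_I, Complex.norm_real, Real.norm_eq_abs] at h2
  linarith

private theorem kap_im {x t : ℝ} (hx : |x| < 1) :
    (kap x t).im = -(Real.sin t * A x t) := by
  have hne := exp_sub_ne (t := t) hx
  have hD := den_pos (t := t) hx
  have hz : Complex.exp (t * Complex.I) = (Real.cos t : ℂ) + (Real.sin t : ℂ) * Complex.I := by
    rw [Complex.exp_mul_I, Complex.ofReal_cos, Complex.ofReal_sin]
  have hcs : (Real.cos t : ℂ) ^ 2 + (Real.sin t : ℂ) ^ 2 = 1 := by
    exact_mod_cast Real.cos_sq_add_sin_sq t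
  have hI : Complex.I ^ 2 = -1 := Complex.I_sq
  have hDc : ((1 - 2 * x * Real.cos t + x ^ 2 : ℝ) : ℂ) ≠ 0 := by exact_mod_cast hD.ne'
  have key : kap x t = (((Real.cos t - 2 * x + x ^ 2 * Real.cos t) /
      (1 - 2 * x * Real.cos t + x ^ 2) ^ 2 : ℝ) : ℂ) +
      ((-((1 - x ^ 2) * Real.sin t) / (1 - 2 * x * Real.cos t + x ^ 2) ^ 2 : ℝ) : ℂ) *
      Complex.I := by
    have hprod : (Complex.exp (t * Complex.I) - x) *
        ((Real.cos t : ℂ) - (Real.sin t : ℂ) * Complex.I - x) =
        ((1 - 2 * x * Real.cos t + x ^ 2 : ℝ) : ℂ) := by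
      rw [hz]
      simp only [Complex.ofReal_add, Complex.ofReal_sub, Complex.ofReal_mul, Complex.ofReal_pow,
        Complex.ofReal_one, Complex.ofReal_ofNat]
      linear_combination hcs - (Real.sin t : ℂ) ^ 2 * hI
    have hnum : Complex.exp (t * Complex.I) *
        ((Real.cos t : ℂ) - (Real.sin t : ℂ) * Complex.I - x) ^ 2 =
        ((Real.cos t - 2 * x + x ^ 2 * Real.cos t : ℝ) : ℂ) +
        ((-((1 - x ^ 2) * Real.sin t) : ℝ) : ℂ) * Complex.I := by
      have h1 : Complex.exp (t * Complex.I) *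
          ((Real.cos t : ℂ) - (Real.sin t : ℂ) * Complex.I) = 1 := by
        rw [hz]
        linear_combination hcs - (Real.sin t : ℂ) ^ 2 * hI
      have h2 : Complex.exp (t * Complex.I) *
          ((Real.cos t : ℂ) - (Real.sin t : ℂ) * Complex.I - x) ^ 2 =
          ((Real.cos t : ℂ) - (Real.sin t : ℂ) * Complex.I) - 2 * x +
            x ^ 2 * Complex.exp (t * Complex.I) := by
        linear_combination (((Real.cos t : ℂ) - (Real.sin t : ℂ) * Complex.I) - 2 * x) * h1
      rw [h2, hz]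
      simp only [Complex.ofReal_add, Complex.ofReal_sub, Complex.ofReal_mul, Complex.ofReal_pow,
        Complex.ofReal_one, Complex.ofReal_ofNat, Complex.ofReal_neg]
      ring
    have e1 : kap x t = (Complex.exp (t * Complex.I) *
        ((Real.cos t : ℂ) - (Real.sin t : ℂ) * Complex.I - x) ^ 2) /
        ((1 - 2 * x * Real.cos t + x ^ 2 : ℝ) : ℂ) ^ 2 := by
      rw [kap, div_eq_div_iff (pow_ne_zero 2 hne) (pow_ne_zero 2 hDc), ← hprod]
      ring
    rw [e1, hnum, Complex.ofReal_div, Complex.ofReal_div, Complex.ofReal_pow, add_div]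
    ring
  rw [key, A]
  simp only [Complex.add_im, Complex.ofReal_im, Complex.mul_im, Complex.ofReal_re, Complex.I_im,
    Complex.I_re, mul_one, mul_zero, add_zero, zero_add]
  ring

private theorem kap_cont {x : ℝ} (hx : |x| < 1) : Continuous (kap x) := by
  unfold kap
  refine Continuous.div (by fun_prop) (by fun_prop) fun t => pow_ne_zero 2 (exp_sub_ne hx)

private theorem g_cont {f : ℂ → ℂ} (hf : DifferentiableOn ℂ f (ball 0 1)) {ρ : ℝ} (h0 : 0 < ρ)
    (h1 : ρ < 1) : Continuous fun t : ℝ => f (ρ * Complex.exp (t * Complex.I)) / ρ := by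
  refine Continuous.div_const ?_ _
  refine hf.continuousOn.comp_continuous (by fun_prop) fun t => ?_
  rw [mem_ball_zero_iff, norm_mul, Complex.norm_exp_ofReal_mul_I, Complex.norm_real,
    Real.norm_eq_abs, abs_of_pos h0, mul_one]
  exact h1

theorem rep {f : ℂ → ℂ} (h : RU f) {ρ x : ℝ} (h0 : 0 < ρ) (h1 : ρ < 1) (hx : |x| < 1) :
    dr f (ρ * x) = (2 * Real.pi)⁻¹ * ∫ t in (0 : ℝ)..2 * Real.pi, wt f ρ t * A x t := by
  have hA := repA h.diff h0 h1 hx
  have hB := repB h.diff h0 h1 hx
  have hg := g_cont h.diff h0 h1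
  have hk := kap_cont hx
  have hkc : Continuous fun t : ℝ => conj (kap x t) := Complex.continuous_conj.comp hk
  have hsub : ∫ t in (0 : ℝ)..2 * Real.pi,
      (f (ρ * Complex.exp (t * Complex.I)) / ρ * kap x t -
        f (ρ * Complex.exp (t * Complex.I)) / ρ * conj (kap x t)) =
      ∫ t in (0 : ℝ)..2 * Real.pi, f (ρ * Complex.exp (t * Complex.I)) / ρ * kap x t := by
    have i1 : IntervalIntegrable (fun t : ℝ => f (ρ * Complex.exp (t * Complex.I)) / ρ * kap x t)
        volume 0 (2 * Real.pi) := (hg.mul hk).intervalIntegrable _ _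
    have i2 : IntervalIntegrable (fun t : ℝ => f (ρ * Complex.exp (t * Complex.I)) / ρ *
        conj (kap x t)) volume 0 (2 * Real.pi) := (hg.mul hkc).intervalIntegrable _ _
    rw [intervalIntegral.integral_sub i1 i2, hB, sub_zero]
  rw [← hsub] at hA
  have hint : IntervalIntegrable (fun t : ℝ => f (ρ * Complex.exp (t * Complex.I)) / ρ * kap x t -
        f (ρ * Complex.exp (t * Complex.I)) / ρ * conj (kap x t)) volume 0 (2 * Real.pi) :=
    ((hg.mul hk).sub (hg.mul hkc)).intervalIntegrable _ _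
  have hre := Complex.reCLM.intervalIntegral_comp_comm hint
  simp only [Complex.reCLM_apply] at hre
  rw [dr, hA]
  have hc : (2 * Real.pi : ℂ)⁻¹ = (((2 * Real.pi)⁻¹ : ℝ) : ℂ) := by push_cast; ring
  rw [hc, Complex.re_ofReal_mul, ← hre]
  congr 1
  refine intervalIntegral.integral_congr fun t _ => ?_
  have hkk : kap x t - conj (kap x t) = ((2 * (kap x t).im : ℝ) : ℂ) * Complex.I := by
    rw [Complex.sub_conj]
  show (f (ρ * Complex.exp (t * Complex.I)) / ρ * kap x t -
        f (ρ * Complex.exp (t * Complex.I)) / ρ * conj (kap x t)).re = wt f ρ t * A x t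
  rw [← mul_sub, hkk, kap_im hx, wt]
  rw [← mul_assoc, Complex.mul_I_re, mul_comm (f (ρ * Complex.exp (t * Complex.I)) / ρ),
    Complex.im_ofReal_mul, Complex.div_ofReal_im]
  ring

end Pool.Agent.H.MP_215299_an.RC
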