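import Pool.Agent.H.MP_215299_an.RC.Defs

/-!
# Univalent functions with real coefficients are typically real

`conj_eq`: `g z = conj (f (conj z))` is holomorphic in the disc (`DifferentiableAt.conj_conj`, `differentiableAt_conj_conj_iff` or similar, see
Mathlib/Analysis/Complex/Conformal or `HasDerivAt.conj_conj`) and equals `f` on the real diameter (`f x` is real), so everywhere by the identity theorem
(`AnalyticOnNhd.eqOn_of_preconnected_of_frequently_eq` at `0`: frequently in `𝓝[≠] 0`).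
`im_pos`: the upper half disc `U` is convex, so preconnected, and `(f z).im ≠ 0` on `U`: otherwise `f (conj z) = conj (f z) = f z` and
`conj z = z` by injectivity. So `(f z).im` has a constant sign on `U` (`IsPreconnected.image`, intermediate value), positive since
`f (i s) / (i s) → f'(0) = 1` for `s → 0+`, so `(f (i s)).im > 0` for small `s > 0`.
-/

set_option autoImplicit false

open Metric Set MeasureTheory Filter
open scoped ENNReal Topology ComplexConjugate

namespace Pool.Agent.H.MP_215299_an.RC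

private theorem TypA_mem {z : ℂ} (hz : z ∈ ball (0 : ℂ) 1) : conj z ∈ ball (0 : ℂ) 1 := by
  rw [mem_ball_zero_iff] at hz ⊢
  rwa [Complex.norm_conj]

theorem conj_eq {f : ℂ → ℂ} (h : RU f) {z : ℂ} (hz : z ∈ ball (0 : ℂ) 1) :
    f (conj z) = conj (f z) := by
  have hf : AnalyticOnNhd ℂ f (ball 0 1) := h.diff.analyticOnNhd isOpen_ball
  have hg : AnalyticOnNhd ℂ (conj ∘ f ∘ conj) (ball 0 1) := by
    refine DifferentiableOn.analyticOnNhd (fun w hw => ?_) isOpen_ball
    refine DifferentiableAt.differentiableWithinAt ?_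
    rw [differentiableAt_conj_conj_iff]
    exact h.diff.differentiableAt (isOpen_ball.mem_nhds (TypA_mem hw))
  have ht : Tendsto (fun x : ℝ => (x : ℂ)) (𝓝[≠] 0) (𝓝[≠] 0) := by
    refine tendsto_nhdsWithin_of_tendsto_nhds_of_eventually_within _ ?_ ?_
    · have h1 := Complex.continuous_ofReal.tendsto (0 : ℝ)
      rw [Complex.ofReal_zero] at h1
      exact h1.mono_left nhdsWithin_le_nhds
    · filter_upwards [self_mem_nhdsWithin] with x hx
      exact Complex.ofReal_ne_zero.2 hx
  have hfr : ∃ᶠ w in 𝓝[≠] (0 : ℂ), f w = (conj ∘ f ∘ conj) w := by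
    refine ht.frequently (Eventually.frequently ?_)
    have h1 : ∀ᶠ x : ℝ in 𝓝[≠] 0, x ∈ ball (0 : ℝ) 1 :=
      nhdsWithin_le_nhds (ball_mem_nhds _ one_pos)
    filter_upwards [h1] with x hx
    have h2 : |x| < 1 := by
      rw [mem_ball_zero_iff, Real.norm_eq_abs] at hx
      exact hx
    have h3 := h.real x h2
    show f x = conj (f (conj (x : ℂ)))
    rw [Complex.conj_ofReal]
    exact (Complex.conj_eq_iff_im.2 h3).symm
  have hE := hf.eqOn_of_preconnected_of_frequently_eq hg (convex_ball (0 : ℂ) 1).isPreconnected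
    (mem_ball_self one_pos) hfr
  have h1 : f (conj z) = conj (f (conj (conj z))) := hE (TypA_mem hz)
  rwa [Complex.conj_conj] at h1

private theorem TypA_pt {f : ℂ → ℂ} (h : RU f) :
    ∃ w ∈ ball (0 : ℂ) 1, 0 < w.im ∧ 0 < (f w).im := by
  have hd : HasDerivAt f 1 0 := by
    have h1 := (h.diff.differentiableAt
      (isOpen_ball.mem_nhds (mem_ball_self one_pos))).hasDerivAt
    rwa [h.one] at h1
  have hs := hasDerivAt_iff_tendsto_slope.1 hd
  have hc : Tendsto (fun s : ℝ => Complex.I * (s : ℂ)) (𝓝[>] 0) (𝓝[≠] 0) := by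
    refine tendsto_nhdsWithin_of_tendsto_nhds_of_eventually_within _ ?_ ?_
    · have h1 : Continuous fun s : ℝ => Complex.I * (s : ℂ) := by fun_prop
      have h2 := h1.tendsto 0
      simp only [Complex.ofReal_zero, mul_zero] at h2
      exact h2.mono_left nhdsWithin_le_nhds
    · filter_upwards [self_mem_nhdsWithin] with s hs
      exact mul_ne_zero Complex.I_ne_zero (Complex.ofReal_ne_zero.2 (ne_of_gt hs))
  have h3 : Tendsto (fun s : ℝ => (slope f 0 (Complex.I * (s : ℂ))).re) (𝓝[>] 0)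
      (𝓝 (1 : ℂ).re) := (Complex.continuous_re.tendsto (1 : ℂ)).comp (hs.comp hc)
  rw [Complex.one_re] at h3
  have h4 : ∀ᶠ s : ℝ in 𝓝[>] 0, 0 < (slope f 0 (Complex.I * (s : ℂ))).re :=
    h3.eventually (lt_mem_nhds one_pos)
  have h5 : ∀ᶠ s : ℝ in 𝓝[>] 0, s < 1 := nhdsWithin_le_nhds (gt_mem_nhds one_pos)
  have h6 : ∀ᶠ s : ℝ in 𝓝[>] 0, 0 < s := self_mem_nhdsWithin
  obtain ⟨s, h7, h8, h9⟩ := (h4.and (h5.and h6)).exists
  refine ⟨Complex.I * (s : ℂ), ?_, ?_, ?_⟩
  · rw [mem_ball_zero_iff, norm_mul, Complex.norm_I, one_mul, Complex.norm_real,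
      Real.norm_eq_abs, abs_of_pos h9]
    exact h8
  · simpa using h9
  · rw [slope_def_field, h.zero, sub_zero, sub_zero, ← div_div, Complex.div_I,
      Complex.div_ofReal_re] at h7
    have h10 : (-(f (Complex.I * (s : ℂ)) * Complex.I)).re = (f (Complex.I * (s : ℂ))).im := by
      simp [Complex.mul_re]
    rw [h10] at h7
    exact (div_pos_iff_of_pos_right h9).1 h7

theorem im_pos {f : ℂ → ℂ} (h : RU f) {z : ℂ} (hz : z ∈ ball (0 : ℂ) 1) (h0 : 0 < z.im) :
    0 < (f z).im := by
  have hne : ∀ w ∈ ball (0 : ℂ) 1, 0 < w.im → (f w).im ≠ 0 := by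
    intro w hw hw0 him
    have h1 : f (conj w) = f w := by
      rw [conj_eq h hw]
      exact Complex.conj_eq_iff_im.2 him
    have h2 := h.inj (TypA_mem hw) hw h1
    exact hw0.ne' (Complex.conj_eq_iff_im.1 h2)
  obtain ⟨w, hw, hw0, hw1⟩ := TypA_pt h
  by_contra hcon
  have hU : IsPreconnected (ball (0 : ℂ) 1 ∩ {w : ℂ | 0 < w.im}) :=
    ((convex_ball (0 : ℂ) 1).inter (convex_halfSpace_im_gt 0)).isPreconnected
  have hcont : ContinuousOn (fun w : ℂ => (f w).im) (ball (0 : ℂ) 1 ∩ {w : ℂ | 0 < w.im}) :=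
    Complex.continuous_im.comp_continuousOn (h.diff.continuousOn.mono inter_subset_left)
  obtain ⟨u, hu, hu1⟩ := hU.intermediate_value (a := z) (b := w) ⟨hz, h0⟩ ⟨hw, hw0⟩ hcont
    (⟨not_lt.1 hcon, hw1.le⟩ : (0 : ℝ) ∈ Icc (f z).im (f w).im)
  exact hne u hu.1 hu.2 hu1

end Pool.Agent.H.MP_215299_an.RC
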