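import Pool.Agent.H.MP_215299_an.RC.TypA

/-!
# The weight is nonnegative and continuous, the derivative is continuous

`wt_nonneg`: `z = ρ e^{it}` has imaginary part `ρ sin t`. If `sin t > 0` use `im_pos` for `z`; if `sin t < 0` use `im_pos` for `conj z` and `conj_eq`; if
`sin t = 0` clear. `wt_cont`: composition, `f` is continuous on the ball. `dr_cont`: `deriv f` is differentiable on the ball (`DifferentiableOn.deriv`), so continuous.
-/

set_option autoImplicit false

open Metric Set MeasureTheory Filter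
open scoped ENNReal Topology ComplexConjugate

namespace Pool.Agent.H.MP_215299_an.RC

private theorem TypB_norm {ρ : ℝ} (h0 : 0 < ρ) (t : ℝ) :
    ‖(ρ : ℂ) * Complex.exp (t * Complex.I)‖ = ρ := by
  rw [norm_mul, Complex.norm_exp_ofReal_mul_I, mul_one, Complex.norm_real, Real.norm_eq_abs,
    abs_of_pos h0]

private theorem TypB_mem {ρ : ℝ} (h0 : 0 < ρ) (h1 : ρ < 1) (t : ℝ) :
    (ρ : ℂ) * Complex.exp (t * Complex.I) ∈ ball (0 : ℂ) 1 := by
  rw [mem_ball_zero_iff, TypB_norm h0]
  exact h1

private theorem TypB_im (ρ t : ℝ) :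
    ((ρ : ℂ) * Complex.exp (t * Complex.I)).im = ρ * Real.sin t := by
  rw [Complex.im_ofReal_mul, Complex.exp_ofReal_mul_I_im]

theorem wt_nonneg {f : ℂ → ℂ} (h : RU f) {ρ : ℝ} (h0 : 0 < ρ) (h1 : ρ < 1) (t : ℝ) :
    0 ≤ wt f ρ t := by
  unfold wt
  have hz := TypB_mem h0 h1 t
  have hi := TypB_im ρ t
  set z : ℂ := (ρ : ℂ) * Complex.exp (t * Complex.I) with hzdef
  rcases lt_trichotomy (Real.sin t) 0 with hs | hs | hs
  · have hc : (conj z : ℂ) ∈ ball (0 : ℂ) 1 := by
      rw [mem_ball_zero_iff, RCLike.norm_conj]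
      exact mem_ball_zero_iff.1 hz
    have h2 : 0 < (conj z : ℂ).im := by
      rw [Complex.conj_im, hi]
      have := mul_neg_of_pos_of_neg h0 hs
      linarith
    have h3 := im_pos h hc h2
    rw [conj_eq h hz, Complex.conj_im] at h3
    have h4 : (f z).im ≤ 0 := by linarith
    have h5 : 0 ≤ Real.sin t * (f z).im := mul_nonneg_of_nonpos_of_nonpos hs.le h4
    have h6 : 2 * Real.sin t * (f z).im / ρ = 2 * (Real.sin t * (f z).im) / ρ := by ring
    rw [h6]
    positivity
  · rw [hs]
    simp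
  · have h2 : 0 < z.im := by
      rw [hi]
      positivity
    have h3 := im_pos h hz h2
    positivity

theorem wt_cont {f : ℂ → ℂ} (h : RU f) {ρ : ℝ} (h0 : 0 < ρ) (h1 : ρ < 1) :
    Continuous (wt f ρ) := by
  have h2 : Continuous fun t : ℝ => f ((ρ : ℂ) * Complex.exp (t * Complex.I)) :=
    h.diff.continuousOn.comp_continuous (by fun_prop) fun t => TypB_mem h0 h1 t
  have h3 : Continuous fun t : ℝ => (f ((ρ : ℂ) * Complex.exp (t * Complex.I))).im :=
    Complex.continuous_im.comp h2
  unfold wt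
  exact ((continuous_const.mul Real.continuous_sin).mul h3).div_const ρ

theorem dr_cont {f : ℂ → ℂ} (h : RU f) : ContinuousOn (dr f) (Ioo (-1) 1) := by
  have h1 : ContinuousOn (deriv f) (ball 0 1) := (h.diff.deriv isOpen_ball).continuousOn
  have h2 : ContinuousOn (fun x : ℝ => deriv f (x : ℂ)) (Ioo (-1) 1) := by
    refine h1.comp Complex.continuous_ofReal.continuousOn fun x hx => ?_
    rw [mem_ball_zero_iff, Complex.norm_real, Real.norm_eq_abs, abs_lt]
    exact hx
  exact Complex.continuous_re.comp_continuousOn h2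

end Pool.Agent.H.MP_215299_an.RC
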